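import Mathlib

/-!
# Achievement games in the Euclidean plane: no fair win within a bounded number of turns

Player 1 (points `x 0, x 1, …`) and Player 2 (points `y 0, y 1, …`) alternately choose new points
of the plane; turn `n` consists of the moves `x n`, `y n`.  We show that for every bounded goal
set `G` and every `N` Player 2 can avoid a fair win of Player 1 during the first `N` turns.
-/

set_option autoImplicit false

namespace Pool.Agent.Results.MP_19fad8_co.NoBoundedFairWin

/-- The Euclidean plane. -/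
abbrev Pt : Type := EuclideanSpace ℝ (Fin 2)

/-- `B` is a copy of `G`: its image under an isometry of the plane. -/
def IsCopy (G B : Set Pt) : Prop := ∃ φ : Pt ≃ᵢ Pt, B = φ '' G

/-- The player whose moves are `x 0, x 1, …` has built a copy of `G` by the end of turn `n`. -/
def Built (G : Set Pt) (x : ℕ → Pt) (n : ℕ) : Prop :=
  ∃ B, IsCopy G B ∧ ∀ b ∈ B, ∃ i ≤ n, x i = b

/-- Turn `n` witnesses a fair win of Player 1. -/
def FairWinAt (G : Set Pt) (x y : ℕ → Pt) (n : ℕ) : Prop := Built G x n ∧ ¬ Built G y n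

/-- No point is chosen twice in the play `x 0, y 0, x 1, y 1, …`. -/
def Legal (x y : ℕ → Pt) : Prop :=
  Function.Injective x ∧ Function.Injective y ∧ ∀ i j, x i ≠ y j

/-- The moves of Player 1 prescribed by a strategy `σ`, which maps the list `y 0, …, y (n-1)` of
the earlier moves of Player 2 to the next move of Player 1. -/
def moves (σ : List Pt → Pt) (y : ℕ → Pt) (n : ℕ) : Pt := σ ((List.range n).map y)

/-- The moves of Player 2 prescribed by a strategy `τ`, which maps the list `x 0, …, x n` of the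
moves of Player 1 to the answer of Player 2. -/
def reply (τ : List Pt → Pt) (x : ℕ → Pt) (n : ℕ) : Pt := τ ((List.range (n + 1)).map x)

/-- `σ` is a strategy of Player 1: it always chooses a new point, as long as Player 2 does. -/
def IsStrategy₁ (σ : List Pt → Pt) : Prop :=
  ∀ (y : ℕ → Pt) (n : ℕ), (∀ i < n, (∀ j < i, y i ≠ y j) ∧ ∀ j ≤ i, y i ≠ moves σ y j) →
    ∀ i < n, moves σ y n ≠ moves σ y i ∧ moves σ y n ≠ y i

/-- `τ` is a strategy of Player 2: it always chooses a new point, as long as Player 1 does. -/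
def IsStrategy₂ (τ : List Pt → Pt) : Prop :=
  ∀ (x : ℕ → Pt) (n : ℕ), (∀ i ≤ n, ∀ j < i, x i ≠ x j ∧ x i ≠ reply τ x j) →
    (∀ j ≤ n, reply τ x n ≠ x j) ∧ ∀ j < n, reply τ x n ≠ reply τ x j

/-! ### The answering rule -/

/-- A point far away from all points of a finite history. -/
theorem exists_far (h : List (Pt × Pt)) (x : Pt) (r : ℝ) :
    ∃ z : Pt, r < dist z x ∧ ∀ q ∈ h, r < dist z q.1 ∧ r < dist z q.2 := by
  classical
  let s : Set Pt := {x} ∪ {p | ∃ q ∈ h, p = q.1 ∨ p = q.2}
  have hs : s.Finite := by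
    refine (Set.finite_singleton x).union ?_
    have : {p : Pt | ∃ q ∈ h, p = q.1 ∨ p = q.2} ⊆
        ((h.map Prod.fst).toFinset ∪ (h.map Prod.snd).toFinset : Finset Pt) := by
      rintro p ⟨q, hq, hp⟩
      simp only [Finset.coe_union, Set.mem_union, Finset.mem_coe, List.mem_toFinset, List.mem_map]
      rcases hp with hp | hp
      · exact Or.inl ⟨q, hq, hp.symm⟩
      · exact Or.inr ⟨q, hq, hp.symm⟩
    exact (Finset.finite_toSet _).subset this
  obtain ⟨C, hC⟩ := hs.isBounded.exists_norm_le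
  obtain ⟨z, hz⟩ := exists_norm_eq (E := Pt) (c := |C| + |r| + 1) (by positivity)
  have key : ∀ p ∈ s, r < dist z p := by
    intro p hp
    have h1 : ‖p‖ ≤ C := hC p hp
    have h2 : ‖z‖ - ‖p‖ ≤ dist z p := by
      rw [dist_eq_norm]
      exact norm_sub_norm_le z p
    have h3 := le_abs_self C
    have h4 := le_abs_self r
    linarith
  refine ⟨z, key x (Or.inl rfl), fun q hq => ⟨key _ (Or.inr ⟨q, hq, Or.inl rfl⟩),
    key _ (Or.inr ⟨q, hq, Or.inr rfl⟩)⟩⟩

open Classical in
/-- The answer to the move `x` after the history `h`, at scale `L`: if `x` is close to a pair of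
`h`, reflect `x` in the midpoint of that pair; otherwise choose a far away point. -/
noncomputable def resp (L : ℝ) (h : List (Pt × Pt)) (x : Pt) : Pt :=
  if hc : 0 < L ∧ ∃ q ∈ h, dist x q.1 ≤ L ∨ dist x q.2 ≤ L then
    hc.2.choose.1 + hc.2.choose.2 - x
  else (exists_far h x (4 * L)).choose


/-- Pairs of the history with different midpoints are far apart, and so are the two points of
each pair. -/
def Inv (L : ℝ) (h : List (Pt × Pt)) : Prop :=
  (∀ p ∈ h, ∀ q ∈ h, p.1 + p.2 ≠ q.1 + q.2 →
    2 * L < dist p.1 q.1 ∧ 2 * L < dist p.1 q.2 ∧ 2 * L < dist p.2 q.1 ∧ 2 * L < dist p.2 q.2) ∧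
  ∀ p ∈ h, 4 * L < dist p.1 p.2

theorem resp_far {L : ℝ} {h : List (Pt × Pt)} {x : Pt}
    (hc : ¬ (0 < L ∧ ∃ q ∈ h, dist x q.1 ≤ L ∨ dist x q.2 ≤ L)) :
    4 * L < dist (resp L h x) x ∧
      ∀ q ∈ h, 4 * L < dist (resp L h x) q.1 ∧ 4 * L < dist (resp L h x) q.2 := by
  unfold resp
  rw [dif_neg hc]
  exact (exists_far h x (4 * L)).choose_spec

theorem resp_near {L : ℝ} {h : List (Pt × Pt)} {x : Pt}
    (hc : 0 < L ∧ ∃ q ∈ h, dist x q.1 ≤ L ∨ dist x q.2 ≤ L) :
    ∃ q ∈ h, (dist x q.1 ≤ L ∨ dist x q.2 ≤ L) ∧ resp L h x = q.1 + q.2 - x := by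
  refine ⟨hc.2.choose, hc.2.choose_spec.1, hc.2.choose_spec.2, ?_⟩
  unfold resp
  rw [dif_pos hc]

theorem resp_zero {h : List (Pt × Pt)} {x : Pt} :
    resp 0 h x ≠ x ∧ ∀ p ∈ h, resp 0 h x ≠ p.1 ∧ resp 0 h x ≠ p.2 := by
  have hc : ¬ ((0 : ℝ) < 0 ∧ ∃ q ∈ h, dist x q.1 ≤ 0 ∨ dist x q.2 ≤ 0) := by
    rintro ⟨h0, -⟩
    exact lt_irrefl _ h0
  obtain ⟨h1, h2⟩ := resp_far hc
  rw [mul_zero] at h1 h2
  refine ⟨dist_pos.1 h1, fun p hp => ⟨dist_pos.1 (h2 p hp).1, dist_pos.1 (h2 p hp).2⟩⟩

theorem step {L : ℝ} (hL : 0 < L) {h : List (Pt × Pt)} (hinv : Inv L h) {x : Pt}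
    (hx : ∀ p ∈ h, x ≠ p.1 ∧ x ≠ p.2) :
    Inv (L / 2) (h ++ [(x, resp L h x)]) ∧ resp L h x ≠ x ∧
      ∀ p ∈ h, resp L h x ≠ p.1 ∧ resp L h x ≠ p.2 := by
  -- the facts on the new pair
  have key : 2 * L < dist x (resp L h x) ∧
      (∀ p ∈ h, p.1 + p.2 ≠ x + resp L h x → L < dist x p.1 ∧ L < dist x p.2 ∧
        L < dist (resp L h x) p.1 ∧ L < dist (resp L h x) p.2) ∧
      ∀ p ∈ h, resp L h x ≠ p.1 ∧ resp L h x ≠ p.2 := by
    by_cases hc : 0 < L ∧ ∃ q ∈ h, dist x q.1 ≤ L ∨ dist x q.2 ≤ L
    · obtain ⟨q, hq, hd, he⟩ := resp_near hc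
      set y := resp L h x with hy
      have hsum : x + y = q.1 + q.2 := by rw [he]; abel
      have hyd1 : dist y q.2 = dist x q.1 := by
        rw [dist_eq_norm, dist_eq_norm, he, ← norm_neg (x - q.1)]
        congr 1
        abel
      have hyd2 : dist y q.1 = dist x q.2 := by
        rw [dist_eq_norm, dist_eq_norm, he, ← norm_neg (x - q.2)]
        congr 1
        abel
      have h4 := hinv.2 q hq
      have hfar : 2 * L < dist x y := by
        rcases hd with hd | hd
        · have t1 := dist_triangle q.1 x y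
          have t2 := dist_triangle q.1 y q.2
          rw [dist_comm q.1 x] at t1
          rw [hyd1] at t2
          linarith
        · have t1 := dist_triangle q.2 x y
          have t2 := dist_triangle q.1 y q.2
          have t3 := dist_triangle q.1 y q.2
          rw [dist_comm q.2 x] at t1
          rw [dist_comm q.1 y, hyd2] at t2
          rw [dist_comm y q.2] at t2
          linarith
      have hsep : ∀ p ∈ h, p.1 + p.2 ≠ x + y → L < dist x p.1 ∧ L < dist x p.2 ∧
          L < dist y p.1 ∧ L < dist y p.2 := by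
        intro p hp hne
        rw [hsum] at hne
        obtain ⟨a1, a2, a3, a4⟩ := hinv.1 p hp q hq hne
        have tri : ∀ a b c : Pt, 2 * L < dist a b → dist c b ≤ L → L < dist c a := by
          intro a b c h1 h2
          have := dist_triangle a c b
          rw [dist_comm a c] at this
          linarith
        rcases hd with hd | hd
        · exact ⟨tri _ _ _ a1 hd, tri _ _ _ a3 hd, tri _ _ _ a2 (hyd1 ▸ hd),
            tri _ _ _ a4 (hyd1 ▸ hd)⟩
        · exact ⟨tri _ _ _ a2 hd, tri _ _ _ a4 hd, tri _ _ _ a1 (hyd2 ▸ hd),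
            tri _ _ _ a3 (hyd2 ▸ hd)⟩
      refine ⟨hfar, hsep, fun p hp => ?_⟩
      by_cases hs : p.1 + p.2 = x + y
      · constructor
        · intro hyp
          rw [hyp, add_comm x, add_right_inj] at hs
          exact (hx p hp).2 hs.symm
        · intro hyp
          rw [hyp, add_left_inj] at hs
          exact (hx p hp).1 hs.symm
      · obtain ⟨-, -, a3, a4⟩ := hsep p hp hs
        exact ⟨dist_pos.1 (hL.trans a3), dist_pos.1 (hL.trans a4)⟩
    · obtain ⟨h1, h2⟩ := resp_far hc
      have hc' : ∀ q ∈ h, L < dist x q.1 ∧ L < dist x q.2 := by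
        intro q hq
        by_contra hcon
        refine hc ⟨hL, q, hq, ?_⟩
        by_contra hcon2
        rw [not_or, not_le, not_le] at hcon2
        exact hcon hcon2
      refine ⟨?_, fun p hp _ => ⟨(hc' p hp).1, (hc' p hp).2, ?_, ?_⟩, fun p hp => ⟨?_, ?_⟩⟩
      · rw [dist_comm]; linarith
      · have := (h2 p hp).1; linarith
      · have := (h2 p hp).2; linarith
      · have := (h2 p hp).1; exact dist_pos.1 (by linarith)
      · have := (h2 p hp).2; exact dist_pos.1 (by linarith)
  obtain ⟨k1, k2, k3⟩ := key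
  refine ⟨⟨?_, ?_⟩, ?_, k3⟩
  · intro p hp q hq hne
    rw [List.mem_append, List.mem_singleton] at hp hq
    have e : 2 * (L / 2) = L := by ring
    rw [e]
    rcases hp with hp | rfl
    · rcases hq with hq | rfl
      · obtain ⟨a1, a2, a3, a4⟩ := hinv.1 p hp q hq hne
        exact ⟨by linarith, by linarith, by linarith, by linarith⟩
      · obtain ⟨a1, a2, a3, a4⟩ := k2 p hp hne
        dsimp only
        rw [dist_comm p.1 x, dist_comm p.1 (resp L h x), dist_comm p.2 x,
          dist_comm p.2 (resp L h x)]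
        exact ⟨a1, a3, a2, a4⟩
    · rcases hq with hq | rfl
      · obtain ⟨a1, a2, a3, a4⟩ := k2 q hq hne.symm
        exact ⟨a1, a2, a3, a4⟩
      · exact absurd rfl hne
  · intro p hp
    rw [List.mem_append, List.mem_singleton] at hp
    rcases hp with hp | rfl
    · have := hinv.2 p hp
      linarith
    · dsimp only
      linarith
  · intro hyx
    rw [hyx, dist_self] at k1
    linarith

/-! ### The strategy of Player 2 -/

/-- The scale used after `n` turns. -/
noncomputable def scale (R : ℝ) (N n : ℕ) : ℝ := if n < N then 2 ^ (N - n) * R else 0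

/-- The history produced by the moves of Player 1. -/
noncomputable def hist (R : ℝ) (N : ℕ) (l : List Pt) : List (Pt × Pt) :=
  l.foldl (fun h x => h ++ [(x, resp (scale R N h.length) h x)]) []

/-- The strategy of Player 2. -/
noncomputable def strat (R : ℝ) (N : ℕ) (l : List Pt) : Pt :=
  ((hist R N l).getLast?.map Prod.snd).getD 0

theorem hist_append (R : ℝ) (N : ℕ) (l : List Pt) (x : Pt) :
    hist R N (l ++ [x]) = hist R N l ++
      [(x, resp (scale R N (hist R N l).length) (hist R N l) x)] := by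
  unfold hist
  rw [List.foldl_append]
  rfl

theorem strat_append (R : ℝ) (N : ℕ) (l : List Pt) (x : Pt) :
    strat R N (l ++ [x]) = resp (scale R N (hist R N l).length) (hist R N l) x := by
  unfold strat
  rw [hist_append]
  simp

/-- The history after `n` turns. -/
noncomputable def H (R : ℝ) (N : ℕ) (x : ℕ → Pt) (n : ℕ) : List (Pt × Pt) :=
  hist R N ((List.range n).map x)

theorem H_zero (R : ℝ) (N : ℕ) (x : ℕ → Pt) : H R N x 0 = [] := rfl

theorem range_succ_map (x : ℕ → Pt) (n : ℕ) :
    (List.range (n + 1)).map x = (List.range n).map x ++ [x n] := by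
  rw [List.range_succ, List.map_append]
  rfl

theorem H_length (R : ℝ) (N : ℕ) (x : ℕ → Pt) (n : ℕ) : (H R N x n).length = n := by
  induction n with
  | zero => rfl
  | succ n ih =>
    unfold H at ih ⊢
    rw [range_succ_map, hist_append, List.length_append, ih]
    rfl

theorem reply_eq (R : ℝ) (N : ℕ) (x : ℕ → Pt) (n : ℕ) :
    reply (strat R N) x n = resp (scale R N n) (H R N x n) (x n) := by
  unfold reply
  rw [range_succ_map, strat_append]
  have := H_length R N x n
  unfold H at this ⊢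
  rw [this]

theorem H_succ (R : ℝ) (N : ℕ) (x : ℕ → Pt) (n : ℕ) :
    H R N x (n + 1) = H R N x n ++ [(x n, reply (strat R N) x n)] := by
  rw [reply_eq]
  have := H_length R N x n
  unfold H at this ⊢
  rw [range_succ_map, hist_append, this]

theorem mem_H (R : ℝ) (N : ℕ) (x : ℕ → Pt) (n : ℕ) (p : Pt × Pt) :
    p ∈ H R N x n ↔ ∃ i < n, p = (x i, reply (strat R N) x i) := by
  induction n with
  | zero => simp [H_zero]
  | succ n ih =>
    rw [H_succ, List.mem_append, List.mem_singleton, ih]
    constructor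
    · rintro (⟨i, hi, h⟩ | h)
      · exact ⟨i, by omega, h⟩
      · exact ⟨n, by omega, h⟩
    · rintro ⟨i, hi, h⟩
      rcases Nat.lt_succ_iff_lt_or_eq.1 hi with hi | rfl
      · exact Or.inl ⟨i, hi, h⟩
      · exact Or.inr h

theorem inv_H {R : ℝ} (hR : 0 < R) (N : ℕ) (x : ℕ → Pt) (n : ℕ) (hn : n ≤ N)
    (hx : ∀ i < n, ∀ j < i, x i ≠ x j ∧ x i ≠ reply (strat R N) x j) :
    Inv (2 ^ (N - n) * R) (H R N x n) := by
  induction n with
  | zero =>
    rw [H_zero]
    constructor
    · intro p hp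
      simp at hp
    · intro p hp
      simp at hp
  | succ n ih =>
    have ih' := ih (by omega) fun i hi j hj => hx i (by omega) j hj
    have hsc : scale R N n = 2 ^ (N - n) * R := by
      unfold scale
      rw [if_pos (by omega)]
    have hL : 0 < 2 ^ (N - n) * R := by positivity
    have hst := step hL ih' (x := x n) (by
      intro p hp
      obtain ⟨i, hi, rfl⟩ := (mem_H R N x n p).1 hp
      exact hx n (by omega) i hi)
    rw [H_succ, reply_eq, hsc]
    have he : 2 ^ (N - (n + 1)) * R = 2 ^ (N - n) * R / 2 := by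
      have : N - n = (N - (n + 1)) + 1 := by omega
      rw [this, pow_succ]
      ring
    rw [he]
    exact hst.1

theorem isStrategy_strat {R : ℝ} (hR : 0 < R) (N : ℕ) : IsStrategy₂ (strat R N) := by
  intro x n hx
  have key : reply (strat R N) x n ≠ x n ∧
      ∀ p ∈ H R N x n, reply (strat R N) x n ≠ p.1 ∧ reply (strat R N) x n ≠ p.2 := by
    by_cases hn : n < N
    · have hsc : scale R N n = 2 ^ (N - n) * R := by
        unfold scale
        rw [if_pos hn]
      have hL : 0 < 2 ^ (N - n) * R := by positivity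
      have hst := step hL (inv_H hR N x n hn.le fun i hi j hj => hx i (by omega) j hj)
        (x := x n) (by
          intro p hp
          obtain ⟨i, hi, rfl⟩ := (mem_H R N x n p).1 hp
          exact hx n le_rfl i hi)
      rw [reply_eq, hsc]
      exact hst.2
    · have hsc : scale R N n = 0 := by
        unfold scale
        rw [if_neg hn]
      rw [reply_eq, hsc]
      exact resp_zero
  constructor
  · intro j hj
    rcases Nat.lt_or_eq_of_le hj with hj | rfl
    · exact (key.2 (x j, reply (strat R N) x j) ((mem_H R N x n _).2 ⟨j, hj, rfl⟩)).1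
    · exact key.1
  · intro j hj
    exact (key.2 (x j, reply (strat R N) x j) ((mem_H R N x n _).2 ⟨j, hj, rfl⟩)).2

theorem not_fairWin {R : ℝ} (hR : 0 < R) (N : ℕ) (x : ℕ → Pt)
    (hx : Legal x (reply (strat R N) x)) (G : Set Pt) (hG : ∀ a ∈ G, ∀ b ∈ G, dist a b ≤ R)
    (n : ℕ) (hn : n < N) : ¬ FairWinAt G x (reply (strat R N) x) n := by
  rintro ⟨⟨B, ⟨φ, rfl⟩, hB⟩, hno⟩
  apply hno
  have hinv := inv_H hR N x (n + 1) (by omega) fun i hi j hj =>
    ⟨fun h => by have := hx.1 h; omega, hx.2.2 i j⟩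
  rcases G.eq_empty_or_nonempty with rfl | ⟨g, hg⟩
  · exact ⟨_, ⟨IsometryEquiv.refl Pt, rfl⟩, by simp⟩
  obtain ⟨i₀, hi₀, hx₀⟩ := hB (φ g) ⟨g, hg, rfl⟩
  set S : Pt := x i₀ + reply (strat R N) x i₀ with hS
  refine ⟨_, ⟨φ.trans (IsometryEquiv.subLeft S), rfl⟩, ?_⟩
  rintro _ ⟨g', hg', rfl⟩
  obtain ⟨i, hi, hxi⟩ := hB (φ g') ⟨g', hg', rfl⟩
  refine ⟨i, hi, ?_⟩
  have hd : dist (x i₀) (x i) ≤ R := by
    rw [hx₀, hxi, φ.dist_eq]
    exact hG _ hg _ hg'
  have hsum : x i₀ + reply (strat R N) x i₀ = x i + reply (strat R N) x i := by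
    by_contra hne
    have h1 := (hinv.1 (x i₀, reply (strat R N) x i₀) ((mem_H R N x (n + 1) _).2
      ⟨i₀, by omega, rfl⟩) (x i, reply (strat R N) x i) ((mem_H R N x (n + 1) _).2
      ⟨i, by omega, rfl⟩) hne).1
    have h2 : (1 : ℝ) ≤ 2 ^ (N - (n + 1)) := one_le_pow₀ (by norm_num)
    dsimp only at h1
    nlinarith
  change _ = S - φ g'
  rw [← hxi, hS, hsum]
  abel


/-! ### Playing the two strategies against each other -/

/-- The two lists of moves after `n` turns, if both players follow their strategies. -/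
def both (σ τ : List Pt → Pt) : ℕ → List Pt × List Pt
  | 0 => ([], [])
  | n + 1 => ((both σ τ n).1 ++ [σ (both σ τ n).2],
      (both σ τ n).2 ++ [τ ((both σ τ n).1 ++ [σ (both σ τ n).2])])

/-- The moves of Player 2, if both players follow their strategies. -/
def yy (σ τ : List Pt → Pt) (n : ℕ) : Pt := τ ((both σ τ n).1 ++ [σ (both σ τ n).2])

theorem both_eq (σ τ : List Pt → Pt) (n : ℕ) :
    both σ τ n = ((List.range n).map (moves σ (yy σ τ)), (List.range n).map (yy σ τ)) := by
  induction n with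
  | zero => rfl
  | succ n ih =>
    rw [range_succ_map, range_succ_map]
    have h1 : moves σ (yy σ τ) n = σ (both σ τ n).2 := by
      unfold moves
      rw [ih]
    have h2 : (both σ τ n).1 = (List.range n).map (moves σ (yy σ τ)) := by rw [ih]
    have h3 : (both σ τ n).2 = (List.range n).map (yy σ τ) := by rw [ih]
    rw [h1, ← h2, ← h3]
    rfl

theorem yy_eq (σ τ : List Pt → Pt) (n : ℕ) :
    yy σ τ n = reply τ (moves σ (yy σ τ)) n := by
  have h1 : moves σ (yy σ τ) n = σ (both σ τ n).2 := by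
    unfold moves
    rw [both_eq]
  have h2 : (both σ τ n).1 = (List.range n).map (moves σ (yy σ τ)) := by rw [both_eq]
  unfold reply
  rw [range_succ_map, h1, ← h2]
  rfl

theorem legal_both {σ τ : List Pt → Pt} (hσ : IsStrategy₁ σ) (hτ : IsStrategy₂ τ) :
    Legal (moves σ (yy σ τ)) (yy σ τ) := by
  set y := yy σ τ with hy
  set x := moves σ y with hx
  have hyr : ∀ n, y n = reply τ x n := fun n => yy_eq σ τ n
  have key : ∀ n, ∀ i < n, (∀ j < i, x i ≠ x j ∧ x i ≠ y j) ∧ (∀ j ≤ i, y i ≠ x j) ∧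
      ∀ j < i, y i ≠ y j := by
    intro n
    induction n with
    | zero => intro i hi; omega
    | succ n ih =>
      intro i hi
      rcases Nat.lt_succ_iff_lt_or_eq.1 hi with hi | rfl
      · exact ih i hi
      · have h1 : ∀ j < i, x i ≠ x j ∧ x i ≠ y j :=
          hσ y i fun k hk => ⟨(ih k hk).2.2, (ih k hk).2.1⟩
        have h2 := hτ x i (by
          intro k hk j hj
          rw [← hyr]
          rcases Nat.lt_or_eq_of_le hk with hk | rfl
          · exact (ih k hk).1 j hj
          · exact h1 j hj)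
        rw [← hyr] at h2
        refine ⟨h1, h2.1, fun j hj => ?_⟩
        have := h2.2 j hj
        rwa [← hyr] at this
  refine ⟨?_, ?_, ?_⟩
  · intro i j hij
    by_contra hne
    rcases Nat.lt_or_gt_of_ne hne with h | h
    · exact ((key (j + 1) j (by omega)).1 i h).1 hij.symm
    · exact ((key (i + 1) i (by omega)).1 j h).1 hij
  · intro i j hij
    by_contra hne
    rcases Nat.lt_or_gt_of_ne hne with h | h
    · exact (key (j + 1) j (by omega)).2.2 i h hij.symm
    · exact (key (i + 1) i (by omega)).2.2 j h hij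
  · intro i j hij
    rcases Nat.lt_or_ge j i with h | h
    · exact ((key (i + 1) i (by omega)).1 j h).2 hij
    · exact (key (j + 1) j (by omega)).2.1 i h hij.symm

/-- **No fair win within a bounded number of turns.**

(1) For every radius `R` and every number `N` of turns, Player 2 has one strategy which, for all
goal sets `G` of diameter at most `R` at the same time, avoids a fair win of Player 1 in each of
the first `N` turns.

(2) Hence, for every finite goal set `G` and every `N`, no strategy of Player 1 ensures a fair win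
within `N` turns. -/
theorem result :
    (∀ (R : ℝ) (N : ℕ), ∃ τ : List Pt → Pt, IsStrategy₂ τ ∧
      ∀ x : ℕ → Pt, Legal x (reply τ x) →
        ∀ G : Set Pt, (∀ a ∈ G, ∀ b ∈ G, dist a b ≤ R) →
          ∀ n < N, ¬ FairWinAt G x (reply τ x) n) ∧
    (∀ G : Set Pt, G.Finite → ∀ (N : ℕ) (σ : List Pt → Pt), IsStrategy₁ σ →
      ∃ y : ℕ → Pt, Legal (moves σ y) y ∧ ∀ n < N, ¬ FairWinAt G (moves σ y) y n) := by
  have part1 : ∀ (R : ℝ) (N : ℕ), ∃ τ : List Pt → Pt, IsStrategy₂ τ ∧
      ∀ x : ℕ → Pt, Legal x (reply τ x) →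
        ∀ G : Set Pt, (∀ a ∈ G, ∀ b ∈ G, dist a b ≤ R) →
          ∀ n < N, ¬ FairWinAt G x (reply τ x) n := by
    intro R N
    have hR : 0 < max R 1 := lt_max_of_lt_right one_pos
    exact ⟨strat (max R 1) N, isStrategy_strat hR N, fun x hx G hG n hn =>
      not_fairWin hR N x hx G (fun a ha b hb => (hG a ha b hb).trans (le_max_left _ _)) n hn⟩
  refine ⟨part1, fun G hG N σ hσ => ?_⟩
  obtain ⟨R, hR⟩ := Metric.isBounded_iff.1 hG.isBounded
  obtain ⟨τ, hτ, hw⟩ := part1 R N
  have hl := legal_both hσ hτ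
  refine ⟨yy σ τ, hl, ?_⟩
  have hyr : reply τ (moves σ (yy σ τ)) = yy σ τ := funext fun n => (yy_eq σ τ n).symm
  have := hw (moves σ (yy σ τ)) (by rw [hyr]; exact hl) G (fun a ha b hb => hR ha hb)
  rwa [hyr] at this

end Pool.Agent.Results.MP_19fad8_co.NoBoundedFairWin
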